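import Pool.Agent.W740.TC.Final

set_option autoImplicit false

open scoped Manifold ContDiff Topology
open Set Filter

namespace Pool.Agent.Results.MP_610fe3_an.OneSidedAbelianCover

open Pool.Agent.H721R2 Pool.Agent.H789R2.AN Pool.Agent.W740.TC
open Pool.Agent.H779R2.To (IsToral)

/-- **Transitivity of Anosov diffeomorphisms whose unstable leaves are properly displaced in an
abelian cover.**
Let `f` be a `C¹` Anosov diffeomorphism of a closed connected smooth manifold `M`.  Let
`φ : M → ℝᵏ/ℤᵏ` be a continuous map and `A` ANY integer `k × k` matrix such that `φ ∘ f` is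
homotopic to `A ∘ φ` (such `φ` and `A` exist for every `f`, with `k` the first Betti number of `M`
and `φ` inducing the largest free abelian cover of `M`).  Suppose that the unstable leaves are
polynomially properly displaced by `φ` (`PolyDisp f.symm φ`): for every neighbourhood `𝒰` of the
diagonal there are constants `a`, `b` such that, if `γ` is a path in an unstable leaf and `θ` is a
lift to `ℝᵏ` of the path `φ ∘ γ`, then `f⁻ⁿ(γ 0)` and `f⁻ⁿ(γ 1)` are `𝒰`-close for all
`n ≥ a log (1 + ‖θ 1 - θ 0‖) + b`.  Nothing is assumed on the stable foliation, on the fundamental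
group or the universal cover of `M`, on the dimensions of the bundles or on the eigenvalues of `A`.
Then `f` is topologically transitive; indeed `f` is topologically conjugate to a hyperbolic
automorphism of a torus.

(The hypothesis is necessary for the last conclusion: it holds for the conjugacy `φ`, by
`Pool.Agent.W740.TC.poly_of_toral`.) -/
theorem result (E : Type*) [NormedAddCommGroup E] [NormedSpace ℝ E] [FiniteDimensional ℝ E]
    (M : Type*) [TopologicalSpace M] [T2Space M] [CompactSpace M] [ConnectedSpace M]
    [ChartedSpace E M] [IsManifold 𝓘(ℝ, E) ∞ M] (f : Diffeomorph 𝓘(ℝ, E) 𝓘(ℝ, E) M M 1)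
    (Es Eu : ∀ x : M, Submodule ℝ (TangentSpace 𝓘(ℝ, E) x)) (hA : IsAnosov f Es Eu)
    (k : ℕ) (A : Matrix (Fin k) (Fin k) ℤ) (φ : C(M, Fin k → AddCircle (1 : ℝ)))
    (hφ : (φ.comp ⟨f, f.continuous⟩).Homotopic ((torusMap A).comp φ))
    (hU : PolyDisp f.symm φ) : TopTransitive f ∧ IsToral f :=
  ⟨(man_homotopy f Es Eu hA A φ hφ hU).1, (man_homotopy f Es Eu hA A φ hφ hU).2.1⟩

end Pool.Agent.Results.MP_610fe3_an.OneSidedAbelianCover
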