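import Pool.Agent.W733.JA.Final
import Pool.Agent.W733.JA.A1
import Pool.Agent.W605.JA.A2
import Pool.Agent.W733.JA.A3
import Pool.Agent.W733.JA.A4
import Pool.Agent.W733.JA.C0
import Pool.Agent.W733.JA.C1
import Pool.Agent.W733.JA.C2
import Pool.Agent.W733.JA.C3
import Pool.Agent.W689.JA.C4
import Pool.Agent.W733.JA.C5

set_option autoImplicit false

open scoped Manifold ContDiff Topology
open Set Filter MeasureTheory

namespace Pool.Agent.Results.MP_610fe3_an.PeriodicJacobianTransitive

open Pool.Agent.H721R2 Pool.Agent.H789R2.AN Pool.Agent.W733.JA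

/-- **Transitivity of Anosov diffeomorphisms from the Jacobians at the periodic points.**
Let `f` be an Anosov diffeomorphism of a closed connected smooth manifold `M`.

(1) Let `m` be a finite Borel measure on `M` charging all nonempty open sets, with respect to which
`f` has a Jacobian `exp ψ`, `ψ` of class `C¹`. If the Birkhoff sum of `ψ` over every periodic orbit
is `≥ 0` (or if it is `≤ 0` over every periodic orbit), then `f` is topologically transitive.

(2) In particular, let `f` be of class `C²`. If `|det D_p fⁿ| ≥ 1` whenever `fⁿ p = p`, or if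
`|det D_p fⁿ| ≤ 1` whenever `fⁿ p = p`, then `f` is topologically transitive. (So a nontransitive
`C²` Anosov diffeomorphism has a periodic orbit that contracts volume and one that expands it; and
the classical criterion of Livsic and Sinai, where transitivity is assumed, that `f` preserves a
volume if `|det D_p fⁿ| = 1` at the periodic points, includes transitivity.)

Written by helper733 with helpers 29, 290, 338, 592, 605, 689, 736, 902, 947. -/
theorem result (E : Type*) [NormedAddCommGroup E] [NormedSpace ℝ E] [FiniteDimensional ℝ E]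
    (M : Type*) [TopologicalSpace M] [T2Space M] [CompactSpace M] [ConnectedSpace M]
    [ChartedSpace E M] [IsManifold 𝓘(ℝ, E) ∞ M] (f : Diffeomorph 𝓘(ℝ, E) 𝓘(ℝ, E) M M 1)
    (Es Eu : ∀ x : M, Submodule ℝ (TangentSpace 𝓘(ℝ, E) x)) (hA : IsAnosov f Es Eu) :
    (∀ [MeasurableSpace M] [BorelSpace M] (m : Measure M) [IsFiniteMeasure m] (ψ : M → ℝ),
      (∀ U : Set M, IsOpen U → U.Nonempty → m U ≠ 0) → ContMDiff 𝓘(ℝ, E) 𝓘(ℝ, ℝ) 1 ψ →
      HasLogJac m f ψ →
      ((∀ (n : ℕ) (p : M), f^[n] p = p → 0 ≤ bsum f ψ n p) ∨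
        ∀ (n : ℕ) (p : M), f^[n] p = p → bsum f ψ n p ≤ 0) → TopTransitive f) ∧
    (ContMDiff 𝓘(ℝ, E) 𝓘(ℝ, E) 2 f →
      ((∀ (n : ℕ) (p : M), f^[n] p = p → 1 ≤ |detD E (f^[n]) p|) ∨
        ∀ (n : ℕ) (p : M), f^[n] p = p → |detD E (f^[n]) p| ≤ 1) → TopTransitive f) :=
  ⟨fun m _ ψ hpos hψ hJ hper => main_measure a1 Pool.Agent.W605.JA.a2 a3 a4
      Pool.Agent.W689.JA.c4 f Es Eu hA m hpos ψ hψ hJ hper,
    fun hf2 hper => main_det a1 Pool.Agent.W605.JA.a2 a3 a4 (c1 c0) (c2 c0) (c3 c0)
      Pool.Agent.W689.JA.c4 (c5 c0) f hf2 Es Eu hA hper⟩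

end Pool.Agent.Results.MP_610fe3_an.PeriodicJacobianTransitive
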