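import Pool.Agent.W733.FT.Man

set_option autoImplicit false

open scoped Manifold ContDiff Topology
open Set Filter

namespace Pool.Agent.Results.MP_610fe3_an.TransitiveFactor

open Pool.Agent.H721R2 Pool.Agent.H789R2.AN Pool.Agent.W733.FT

/-- **Transitivity of Anosov diffeomorphisms with a transitive factor and one transitive fibre.**
Let `f` be a `C¹` Anosov diffeomorphism of a closed connected smooth manifold `M` and let
`π : M → B` be a continuous semi-open map (for instance an open map, such as the projection of a
fibre bundle) to a Hausdorff space with `π ∘ f = g ∘ π`, where `g` is a topologically transitive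
homeomorphism of `B`. Suppose that ONE fibre `π⁻¹(p)` is contained in a forward invariant set `K`
on which `f` is topologically transitive; for instance `p` is a periodic point of `g` and the
return map of the fibre over `p` is transitive (so `K` is the union of finitely many fibres), or
the fibre over `p` is one recurrent point. Then `f` is topologically transitive.

Nothing is assumed on the other fibres, on the fibre dimension, on the fundamental group, or on the
bundles of `f`; `g` is not assumed to be Anosov nor `π` to be smooth. In particular a positive
answer to the question for an Anosov diffeomorphism of the base of a fibre bundle and for the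
return map of one periodic fibre implies a positive answer for the total space. -/
theorem result (E : Type*) [NormedAddCommGroup E] [NormedSpace ℝ E] [FiniteDimensional ℝ E]
    (M : Type*) [TopologicalSpace M] [T2Space M] [CompactSpace M] [ConnectedSpace M]
    [ChartedSpace E M] [IsManifold 𝓘(ℝ, E) ∞ M] (f : Diffeomorph 𝓘(ℝ, E) 𝓘(ℝ, E) M M 1)
    (Es Eu : ∀ x : M, Submodule ℝ (TangentSpace 𝓘(ℝ, E) x)) (hA : IsAnosov f Es Eu)
    (B : Type*) [TopologicalSpace B] [T2Space B] (π : M → B) (hπ : Continuous π)
    (hsemi : SemiOpen π) (g : B ≃ₜ B) (hsc : ∀ x, π (f x) = g (π x)) (hg : TopTransitive g)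
    (p : B) (K : Set M) (hpK : π ⁻¹' {p} ⊆ K) (hKinv : ∀ x ∈ K, f x ∈ K)
    (hK : TransitiveOn f K) : TopTransitive f :=
  main f Es Eu hA π hπ hsemi g hsc hg p K hpK hKinv hK

end Pool.Agent.Results.MP_610fe3_an.TransitiveFactor
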